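import Pool.Agent.OF54.Edge

/-!
# Plane cuts of a body into two optical fibers are orthogonal to the walls

If a plane cuts a body into two parts that are both optical fibers, then it meets the walls at a
right angle along the boundary of the section. So a body that is sliced by planes, each of which
cuts it into two optical fibers, is sliced orthogonally.
-/

open MeasureTheory Set Filter Topology
open scoped RealInnerProductSpace
open Pool.Agent.OF54

namespace Pool.Agent.Results.MP_4387b1_gt.CutsAreOrthogonal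

/-- `q` is a regular point of the walls and `w ≠ 0` is normal to the walls at `q`: near `q` the body
is `ψ x > 0` and the walls are `ψ x = 0`, the ends are absent, and the normals of the walls are
proportional to the gradient of `ψ`, which is `w` at `q` and continuous at `q`. -/
structure WallAt (B : Body) (q w : E3) : Prop where
  ne : w ≠ 0
  loc : ∃ (ψ : E3 → ℝ) (g : E3 → E3) (U : Set E3), U ∈ 𝓝 q ∧ (∀ x ∈ U, HasGradientAt ψ (g x) x) ∧
    ContinuousAt g q ∧ g q = w ∧ ψ q = 0 ∧ (∀ x ∈ U, (x ∈ B.V ↔ 0 < ψ x)) ∧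
    (∀ x ∈ U, (x ∈ B.walls ↔ ψ x = 0)) ∧ (∀ x ∈ U, x ∉ B.F₁ ∧ x ∉ B.F₂) ∧
    ∀ x ∈ U, x ∈ B.walls → B.n x = ‖g x‖⁻¹ • g x ∨ B.n x = -(‖g x‖⁻¹ • g x)

/-- The part of the body on the side `⟪x, ν⟫ < c` of the plane `⟪x, ν⟫ = c`, which is parametrized
by `φ`. Its first end is the first end of the body, its second end is the plane section. -/
def lower (B : Body) (φ : E2 → E3) (ν : E3) (c : ℝ) : Body where
  V := {x | x ∈ B.V ∧ ⟪x, ν⟫ < c}
  walls := {x | x ∈ B.walls ∧ ⟪x, ν⟫ < c}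
  n := B.n
  φ₁ := B.φ₁
  φ₂ := φ
  G₁ := B.G₁
  G₂ := φ ⁻¹' B.V
  ν₁ := B.ν₁
  ν₂ := -ν

/-- The part of the body on the side `⟪x, ν⟫ > c` of the plane `⟪x, ν⟫ = c`, which is parametrized
by `φ`. Its first end is the plane section, its second end is the second end of the body. -/
def upper (B : Body) (φ : E2 → E3) (ν : E3) (c : ℝ) : Body where
  V := {x | x ∈ B.V ∧ c < ⟪x, ν⟫}
  walls := {x | x ∈ B.walls ∧ c < ⟪x, ν⟫}
  n := B.n
  φ₁ := φ
  φ₂ := B.φ₂
  G₁ := φ ⁻¹' B.V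
  G₂ := B.G₂
  ν₁ := ν
  ν₂ := B.ν₂

/-- The plane `⟪x, ν⟫ = c` cuts the body into two optical fibers. -/
def CutsIntoFibers (B : Body) (ν : E3) (c : ℝ) : Prop :=
  ∃ φ : E2 → E3, Isometry φ ∧ range φ = {x | ⟪x, ν⟫ = c} ∧
    IsOpticalFiber (lower B φ ν c) ∧ IsOpticalFiber (upper B φ ν c)

/-- The planes `⟪x, m t⟫ = c t`, `a ≤ t ≤ b`, slice the body: every point of the body, of its walls
and of its ends lies in exactly one of them, the first plane holds the first end and the last one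
the second end, and every wall point in a plane is a boundary point of the section by this
plane, which is neither the first nor the last one. -/
structure Slices (B : Body) (a b : ℝ) (m : ℝ → E3) (c : ℝ → ℝ) : Prop where
  lt : a < b
  cont_m : ContinuousOn m (Icc a b)
  cont_c : ContinuousOn c (Icc a b)
  norm_eq : ∀ t ∈ Icc a b, ‖m t‖ = 1
  unique : ∀ p ∈ B.V ∪ B.walls ∪ B.F₁ ∪ B.F₂, ∃! t, t ∈ Icc a b ∧ ⟪p, m t⟫ = c t
  first : ∀ p ∈ B.F₁, ⟪p, m a⟫ = c a
  last : ∀ p ∈ B.F₂, ⟪p, m b⟫ = c b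
  walls : ∀ t ∈ Icc a b, ∀ p ∈ B.walls, ⟪p, m t⟫ = c t →
    t ∈ Ioo a b ∧ p ∈ closure {x | x ∈ B.V ∧ ⟪x, m t⟫ = c t}

theorem image_section {V : Set E3} {φ : E2 → E3} {ν : E3} {c : ℝ}
    (hr : range φ = {x | ⟪x, ν⟫ = c}) : φ '' (φ ⁻¹' V) = {x | x ∈ V ∧ ⟪x, ν⟫ = c} := by
  rw [image_preimage_eq_inter_range, hr]
  rfl

theorem cut (B : Body) (hV : IsOpen B.V) {ν : E3} {c : ℝ} (h : CutsIntoFibers B ν c) {q w : E3}
    (hq : WallAt B q w) (hqc : q ∈ closure {x | x ∈ B.V ∧ ⟪x, ν⟫ = c}) : ⟪w, ν⟫ = 0 := by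
  obtain ⟨φ, hφ, hr, hlo, hup⟩ := h
  have hS := image_section (V := B.V) hr
  have hqν : ⟪q, ν⟫ = c := by
    have hcl : IsClosed {x : E3 | ⟪x, ν⟫ = c} :=
      isClosed_eq (continuous_id.inner continuous_const) continuous_const
    exact closure_minimal (fun x hx => hx.2) hcl hqc
  obtain ⟨ψ, g, U, hU, hgrad, hgc, hgq, hψq, hUV, hUW, hUF, hn⟩ := hq.loc
  have hG : IsOpen (φ ⁻¹' B.V) := hV.preimage hφ.continuous
  have e1 : ∀ x : E3, ⟪x - q, ν⟫ = ⟪x, ν⟫ - c := fun x => by rw [inner_sub_left, hqν]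
  have e2 : ∀ x : E3, ⟪x - q, -ν⟫ = c - ⟪x, ν⟫ := fun x => by
    rw [inner_neg_right, e1]; ring
  have h1 : 0 ≤ ⟪w, ν⟫ := by
    refine edge (upper B φ ν c) (F := φ '' (φ ⁻¹' B.V)) (F' := B.F₂) (p := q) hφ.continuous hG rfl
      hup.forth ⟨by rw [hS]; exact hqc, hq.ne, ψ, g, U, hU, hgrad, hgc, hgq, hψq,
        fun x hx => ?_, fun x hx => ?_, fun x hx => ?_, fun x hx => (hUF x hx).2,
        fun x hx hw => hn x hx hw.1⟩
    · rw [e1, sub_pos, ← hUV x hx]
      exact and_comm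
    · rw [e1, sub_pos, ← hUW x hx]
      exact and_comm
    · rw [e1, sub_eq_zero, ← hUV x hx, hS]
      exact and_comm
  have h2 : 0 ≤ ⟪w, -ν⟫ := by
    refine edge (lower B φ ν c) (F := φ '' (φ ⁻¹' B.V)) (F' := B.F₁) (p := q) hφ.continuous hG rfl
      hlo.back ⟨by rw [hS]; exact hqc, hq.ne, ψ, g, U, hU, hgrad, hgc, hgq, hψq,
        fun x hx => ?_, fun x hx => ?_, fun x hx => ?_, fun x hx => (hUF x hx).1,
        fun x hx hw => hn x hx hw.1⟩
    · rw [e2, sub_pos, ← hUV x hx]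
      exact and_comm
    · rw [e2, sub_pos, ← hUW x hx]
      exact and_comm
    · rw [e2, sub_eq_zero, ← hUV x hx, hS]
      exact ⟨fun hx => ⟨hx.2.symm, hx.1⟩, fun hx => ⟨hx.2, hx.1.symm⟩⟩
  rw [inner_neg_right] at h2
  linarith

/-- **Theorem.** If a body with an open interior and regular walls is sliced by planes, and every
intermediate plane cuts it into two optical fibers, then these planes meet the walls at a right
angle, and the body is sliced orthogonally. -/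
theorem result (B : Body) (hV : IsOpen B.V) (hW : ∀ q ∈ B.walls, ∃ w, WallAt B q w) (a b : ℝ)
    (m : ℝ → E3) (c : ℝ → ℝ) (hs : Slices B a b m c)
    (hc : ∀ t ∈ Ioo a b, CutsIntoFibers B (m t) (c t)) :
    (∀ t ∈ Icc a b, ∀ p ∈ B.walls, ⟪p, m t⟫ = c t → ⟪B.n p, m t⟫ = 0) ∧
      SlicedOrthogonally B := by
  have key : ∀ t ∈ Icc a b, ∀ p ∈ B.walls, ⟪p, m t⟫ = c t → ⟪B.n p, m t⟫ = 0 := by
    intro t ht p hp hpt
    obtain ⟨h1, h2⟩ := hs.walls t ht p hp hpt
    obtain ⟨w, hw⟩ := hW p hp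
    have h3 := cut B hV (hc t h1) hw h2
    obtain ⟨ψ, g, U, hU, hgrad, hgc, hgq, hψq, hUV, hUW, hUF, hn⟩ := hw.loc
    rcases hn p (mem_of_mem_nhds hU) hp with h4 | h4
    · rw [h4, hgq, real_inner_smul_left, h3, mul_zero]
    · rw [h4, hgq, inner_neg_left, real_inner_smul_left, h3, mul_zero, neg_zero]
  exact ⟨key, a, b, m, c, hs.lt, hs.cont_m, hs.cont_c, hs.norm_eq, hs.unique, hs.first, hs.last,
    key⟩

end Pool.Agent.Results.MP_4387b1_gt.CutsAreOrthogonal
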