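import Pool.Agent.OF54.Defs

/-!
# Walls and ends of an optical fiber

In every optical fiber the walls meet both ends at an interior angle of at least `π / 2`.
-/

open MeasureTheory Set Filter Topology
open scoped RealInnerProductSpace
open Pool.Agent.OF54

namespace Pool.Agent.Results.MP_4387b1_gt.EdgeAngles

/-- `p` is a regular edge point of the end `F` (the other end is `F'`, `ν` is the inner normal of
`F`) and `m` is normal to the walls there and points into the body: near `p` the body is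
`⟪x - p, ν⟫ > 0, ψ x > 0`, the walls are `⟪x - p, ν⟫ > 0, ψ x = 0`, the end is
`⟪x - p, ν⟫ = 0, ψ x > 0`, the other end is absent, and the normals of the walls are
proportional to the gradient of `ψ`, which is `m ≠ 0` at `p` and continuous at `p`. -/
structure EdgeAt (B : Body) (F F' : Set E3) (ν p m : E3) : Prop where
  mem : p ∈ closure F
  ne : m ≠ 0
  loc : ∃ (ψ : E3 → ℝ) (g : E3 → E3) (U : Set E3), U ∈ 𝓝 p ∧ (∀ x ∈ U, HasGradientAt ψ (g x) x) ∧
    ContinuousAt g p ∧ g p = m ∧ ψ p = 0 ∧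
    (∀ x ∈ U, (x ∈ B.V ↔ 0 < ⟪x - p, ν⟫ ∧ 0 < ψ x)) ∧
    (∀ x ∈ U, (x ∈ B.walls ↔ 0 < ⟪x - p, ν⟫ ∧ ψ x = 0)) ∧
    (∀ x ∈ U, (x ∈ F ↔ ⟪x - p, ν⟫ = 0 ∧ 0 < ψ x)) ∧
    (∀ x ∈ U, x ∉ F') ∧
    ∀ x ∈ U, x ∈ B.walls → B.n x = ‖g x‖⁻¹ • g x ∨ B.n x = -(‖g x‖⁻¹ • g x)

/-- Reflection in the plane orthogonal to `w`. -/
noncomputable def refl (w v : E3) : E3 := v - (2 * ⟪v, w⟫ / ‖w‖ ^ 2) • w

theorem refl_eq {w v n : E3} (h : n = ‖w‖⁻¹ • w ∨ n = -(‖w‖⁻¹ • w)) :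
    v - (2 * ⟪v, n⟫) • n = refl w v := by
  have h1 : v - (2 * ⟪v, ‖w‖⁻¹ • w⟫) • (‖w‖⁻¹ • w) = refl w v := by
    rw [refl, real_inner_smul_right, smul_smul]
    congr 2
    ring
  rcases h with rfl | rfl
  · exact h1
  · rw [inner_neg_right, smul_neg, mul_neg, neg_smul, neg_neg, h1]

theorem norm_refl {w v : E3} (hw : w ≠ 0) : ‖refl w v‖ = ‖v‖ := by
  have h1 : ‖‖w‖⁻¹ • w‖ = 1 := by
    rw [norm_smul, norm_inv, norm_norm]
    exact inv_mul_cancel₀ (norm_ne_zero_iff.2 hw)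
  have h2 := norm_reflect (v := v) h1
  rw [refl_eq (w := w) (Or.inl rfl)] at h2
  rwa [sq_eq_sq₀ (norm_nonneg _) (norm_nonneg _)] at h2

theorem hasDerivAt_line {ψ : E3 → ℝ} {g : E3 → E3} {x v : E3} {s : ℝ}
    (h : HasGradientAt ψ (g (x + s • v)) (x + s • v)) :
    HasDerivAt (fun s : ℝ => ψ (x + s • v)) ⟪g (x + s • v), v⟫ s := by
  have h1 : HasDerivAt (fun s : ℝ => x + s • v) v s := by
    simpa using ((hasDerivAt_id s).smul_const v).const_add x
  have h2 := h.hasFDerivAt.comp_hasDerivAt s h1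
  simpa [Function.comp_def] using h2

theorem edge (B : Body) {F F' : Set E3} {φ : E2 → E3} {G : Set E2} {ν p m : E3}
    (hφ : Continuous φ) (hG : IsOpen G) (hF : F = φ '' G)
    (hfib : ∀ᵐ u ∂(volume.restrict G), ∀ᵐ v : E3, 0 < ⟪v, ν⟫ → Leaves B F' (φ u) v)
    (he : EdgeAt B F F' ν p m) : 0 ≤ ⟪m, ν⟫ := by
  by_contra hneg
  push Not at hneg
  obtain ⟨ψ, g, U, hU, hgrad, hgc, hgp, hψp, hV, hW, hFe, hF', hn⟩ := he.loc
  have hm := he.ne
  have hmp : 0 < ‖m‖ := norm_pos_iff.2 hm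
  have hν : 0 < ‖ν‖ := by
    rw [norm_pos_iff]
    rintro rfl
    simp at hneg
  set κ : ℝ := ⟪m, ν⟫ with hκ
  set c : ℝ := min (‖m‖ ^ 2) (-κ) / 2 with hc
  have hc0 : 0 < c := half_pos (lt_min (by positivity) (by linarith))
  have hc1 : c < ‖m‖ ^ 2 := by
    have := min_le_left (‖m‖ ^ 2) (-κ)
    have : 0 < ‖m‖ ^ 2 := by positivity
    rw [hc]; linarith
  have hc2 : κ < -c := by
    have := min_le_right (‖m‖ ^ 2) (-κ)
    rw [hc]; linarith
  have hr0 : refl m (-m) = m := by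
    rw [refl, inner_neg_left, real_inner_self_eq_norm_sq]
    have : 2 * -‖m‖ ^ 2 / ‖m‖ ^ 2 = -2 := by field_simp
    rw [this]
    module
  -- continuity
  have hcont2 : ContinuousAt (fun z : E3 × E3 => refl (g z.1) z.2) (p, -m) := by
    unfold refl
    have hg1 : ContinuousAt (fun z : E3 × E3 => g z.1) (p, -m) :=
      ContinuousAt.comp (f := Prod.fst) (x := (p, -m)) hgc continuousAt_fst
    have hne : ‖g (p, -m).1‖ ^ 2 ≠ 0 := by rw [hgp]; positivity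
    exact continuousAt_snd.sub (((continuousAt_const.mul (continuousAt_snd.inner hg1)).div
      (hg1.norm.pow 2) hne).smul hg1)
  have ev1 : ∀ᶠ z : E3 × E3 in 𝓝 (p, -m), ⟪g z.1, z.2⟫ < -c := by
    have h : ContinuousAt (fun z : E3 × E3 => (⟪g z.1, z.2⟫ : ℝ)) (p, -m) :=
      (ContinuousAt.comp (f := Prod.fst) (x := (p, -m)) hgc continuousAt_fst).inner
        continuousAt_snd
    refine h.eventually_lt continuousAt_const ?_
    simp only [hgp, inner_neg_right, real_inner_self_eq_norm_sq]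
    linarith
  have ev2 : ∀ᶠ z : E3 × E3 in 𝓝 (p, -m), ⟪refl (g z.1) z.2, ν⟫ < -c := by
    refine (hcont2.inner continuousAt_const).eventually_lt continuousAt_const ?_
    simp only [hgp, hr0]
    exact hc2
  have ev3 : ∀ᶠ w : E3 × (E3 × E3) in 𝓝 (p, (p, -m)), 0 < ⟪g w.1, refl (g w.2.1) w.2.2⟫ := by
    have h1 : ContinuousAt (fun w : E3 × (E3 × E3) => g w.1) (p, (p, -m)) :=
      ContinuousAt.comp (f := Prod.fst) (x := (p, (p, -m))) hgc continuousAt_fst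
    have h2 : ContinuousAt (fun w : E3 × (E3 × E3) => refl (g w.2.1) w.2.2) (p, (p, -m)) :=
      ContinuousAt.comp (f := Prod.snd) (x := (p, (p, -m))) hcont2 continuousAt_snd
    refine continuousAt_const.eventually_lt (h1.inner h2) ?_
    simp only [hgp, hr0, real_inner_self_eq_norm_sq]
    positivity
  have ev4 : ∀ᶠ v : E3 in 𝓝 (-m), 0 < ⟪v, ν⟫ := by
    refine continuousAt_const.eventually_lt (continuousAt_id.inner continuousAt_const) ?_
    simp only [inner_neg_left]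
    linarith
  obtain ⟨δ₁, hδ₁, H1⟩ := Metric.eventually_nhds_iff.1 ev1
  obtain ⟨δ₂, hδ₂, H2⟩ := Metric.eventually_nhds_iff.1 ev2
  obtain ⟨δ₃, hδ₃, H3⟩ := Metric.eventually_nhds_iff.1 ev3
  obtain ⟨δ₄, hδ₄, H4⟩ := Metric.eventually_nhds_iff.1 ev4
  obtain ⟨δ₅, hδ₅, H5⟩ := Metric.mem_nhds_iff.1 hU
  obtain ⟨r, hr, hr1, hr2, hr3, hr4, hr5, hr6⟩ : ∃ r : ℝ, 0 < r ∧ r ≤ δ₁ ∧ r ≤ δ₂ ∧ r ≤ δ₃ ∧
      r ≤ δ₄ ∧ r ≤ δ₅ ∧ r ≤ 1 := by
    refine ⟨min (min (min δ₁ δ₂) (min δ₃ δ₄)) (min δ₅ 1), by positivity, ?_, ?_, ?_, ?_, ?_, ?_⟩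
    · exact (min_le_left _ _).trans ((min_le_left _ _).trans (min_le_left _ _))
    · exact (min_le_left _ _).trans ((min_le_left _ _).trans (min_le_right _ _))
    · exact (min_le_left _ _).trans ((min_le_right _ _).trans (min_le_left _ _))
    · exact (min_le_left _ _).trans ((min_le_right _ _).trans (min_le_right _ _))
    · exact (min_le_right _ _).trans (min_le_left _ _)
    · exact (min_le_right _ _).trans (min_le_right _ _)
  have K1 : ∀ x v : E3, dist x p < r → dist v (-m) < r → ⟪g x, v⟫ < -c := fun x v hx hv =>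
    H1 (y := (x, v)) (by rw [Prod.dist_eq]; exact max_lt (hx.trans_le hr1) (hv.trans_le hr1))
  have K2 : ∀ x v : E3, dist x p < r → dist v (-m) < r → ⟪refl (g x) v, ν⟫ < -c :=
    fun x v hx hv =>
    H2 (y := (x, v)) (by rw [Prod.dist_eq]; exact max_lt (hx.trans_le hr2) (hv.trans_le hr2))
  have K3 : ∀ x' x v : E3, dist x' p < r → dist x p < r → dist v (-m) < r →
      0 < ⟪g x', refl (g x) v⟫ := fun x' x v hx' hx hv =>
    H3 (y := (x', (x, v))) (by
      rw [Prod.dist_eq, Prod.dist_eq]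
      exact max_lt (hx'.trans_le hr3) (max_lt (hx.trans_le hr3) (hv.trans_le hr3)))
  have K4 : ∀ v : E3, dist v (-m) < r → 0 < ⟪v, ν⟫ := fun v hv => H4 (hv.trans_le hr4)
  have K5 : ∀ x : E3, dist x p < r → x ∈ U := fun x hx => H5 (hx.trans_le hr5)
  set M : ℝ := ‖m‖ + 1 with hM
  have hM0 : 0 < M := by positivity
  have K6 : ∀ v : E3, dist v (-m) < r → ‖v‖ ≤ M := by
    intro v hv
    have h1 : ‖v‖ ≤ ‖v - -m‖ + ‖-m‖ := by
      calc ‖v‖ = ‖(v - -m) + -m‖ := by congr 1; abel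
        _ ≤ _ := norm_add_le _ _
    rw [dist_eq_norm] at hv
    rw [norm_neg] at h1
    linarith
  -- the time scale
  obtain ⟨τ, hτ, hτ1, hτ2⟩ : ∃ τ : ℝ, 0 < τ ∧ M * τ ≤ r / 4 ∧ M * (τ * (M * ‖ν‖) / c) ≤ r / 4 := by
    refine ⟨min (r / 4 / M) (r / 4 * c / (M * (M * ‖ν‖))), by positivity, ?_, ?_⟩
    · calc M * min (r / 4 / M) (r / 4 * c / (M * (M * ‖ν‖))) ≤ M * (r / 4 / M) :=
          mul_le_mul_of_nonneg_left (min_le_left _ _) hM0.le
        _ = r / 4 := by field_simp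
    · calc M * (min (r / 4 / M) (r / 4 * c / (M * (M * ‖ν‖))) * (M * ‖ν‖) / c)
          ≤ M * ((r / 4 * c / (M * (M * ‖ν‖))) * (M * ‖ν‖) / c) := by
            gcongr
            exact min_le_right _ _
        _ = r / 4 := by field_simp
  -- small starting points
  have hψc : ContinuousAt ψ p := (hgrad p (K5 p (by simpa using hr))).hasFDerivAt.continuousAt
  have ev6 : ∀ᶠ x : E3 in 𝓝 p, ψ x < c * τ ∧ dist x p < r / 4 := by
    refine Filter.Eventually.and ?_ (Metric.ball_mem_nhds p (by positivity))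
    refine hψc.eventually_lt continuousAt_const ?_
    rw [hψp]; positivity
  obtain ⟨O, hO, hOopen, hpO⟩ := mem_nhds_iff.1 ev6
  obtain ⟨x0, hx0, hx0F⟩ := mem_closure_iff.1 he.mem O hOopen hpO
  rw [hF] at hx0F
  obtain ⟨u0, hu0, rfl⟩ := hx0F
  obtain ⟨u, hu, hu'⟩ := exists_of_ae_restrict hfib (hG.inter (hOopen.preimage hφ))
    (fun u hu => hu.1) ⟨u0, hu0, hx0⟩
  obtain ⟨v, hv, hv'⟩ := exists_of_ae hu' (Metric.isOpen_ball (x := -m) (ε := r))
    ⟨-m, Metric.mem_ball_self hr⟩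
  have hL := hv' (K4 v hv)
  have hxF : φ u ∈ F := by rw [hF]; exact ⟨u, hu.1, rfl⟩
  obtain ⟨hx1, hx2⟩ := hO hu.2
  generalize φ u = x at hL hxF hx1 hx2
  have hv0 : dist v (-m) < r := hv
  have hvM := K6 v hv0
  obtain ⟨hx3, hx4⟩ := (hFe x (K5 x (by linarith))).1 hxF
  have hball : ∀ s : ℝ, 0 ≤ s → s ≤ τ → dist (x + s • v) p < r / 2 := by
    intro s hs hs'
    have h1 : dist (x + s • v) p ≤ dist x p + ‖s • v‖ := by
      rw [dist_eq_norm, dist_eq_norm]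
      calc ‖x + s • v - p‖ = ‖(x - p) + s • v‖ := by congr 1; abel
        _ ≤ _ := norm_add_le _ _
    rw [norm_smul, Real.norm_eq_abs, abs_of_nonneg hs] at h1
    have h2 : s * ‖v‖ ≤ τ * M := mul_le_mul hs' hvM (norm_nonneg _) hτ.le
    linarith
  -- the first segment
  have hd1 : ∀ s ∈ Icc 0 τ, HasDerivAt (fun s : ℝ => ψ (x + s • v)) ⟪g (x + s • v), v⟫ s :=
    fun s hs => hasDerivAt_line (hgrad _ (K5 _ (by linarith [hball s hs.1 hs.2])))
  have hcf : ContinuousOn (fun s : ℝ => ψ (x + s • v)) (Icc 0 τ) :=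
    fun s hs => (hd1 s hs).continuousAt.continuousWithinAt
  have hneg1 : ∀ s ∈ Icc 0 τ, ⟪g (x + s • v), v⟫ < -c := fun s hs =>
    K1 _ _ (by linarith [hball s hs.1 hs.2]) hv0
  have hanti : StrictAntiOn (fun s : ℝ => ψ (x + s • v)) (Icc 0 τ) := by
    refine strictAntiOn_of_deriv_neg (convex_Icc 0 τ) hcf fun s hs => ?_
    rw [interior_Icc] at hs
    rw [(hd1 s (Ioo_subset_Icc_self hs)).deriv]
    linarith [hneg1 s (Ioo_subset_Icc_self hs)]
  have hend : ψ (x + τ • v) < 0 := by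
    obtain ⟨ξ, hξ, hξ'⟩ := exists_hasDerivAt_eq_slope (fun s : ℝ => ψ (x + s • v))
      (fun s : ℝ => ⟪g (x + s • v), v⟫) hτ hcf (fun s hs => hd1 s (Ioo_subset_Icc_self hs))
    have h1 := hneg1 ξ (Ioo_subset_Icc_self hξ)
    rw [hξ', sub_zero, div_lt_iff₀ hτ] at h1
    simp only [zero_smul, add_zero] at h1
    linarith
  have hstart : 0 < ψ (x + (0 : ℝ) • v) := by simpa using hx4
  obtain ⟨t₁, ht₁, hft₁⟩ : ∃ t ∈ Icc 0 τ, ψ (x + t • v) = 0 :=
    intermediate_value_Icc' hτ.le hcf ⟨hend.le, hstart.le⟩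
  have ht₁0 : 0 < t₁ := by
    rcases ht₁.1.eq_or_lt with h | h
    · rw [← h] at hft₁; linarith
    · exact h
  have hpos1 : ∀ s, 0 ≤ s → s < t₁ → 0 < ψ (x + s • v) := by
    intro s hs hs'
    have := hanti ⟨hs, hs'.le.trans ht₁.2⟩ ht₁ hs'
    simp only [hft₁] at this
    exact this
  have hyr : dist (x + t₁ • v) p < r / 2 := hball t₁ ht₁.1 ht₁.2
  have hyU : x + t₁ • v ∈ U := K5 _ (by linarith)
  have hyV : x + t₁ • v ∉ B.V := fun h =>
    absurd ((hV _ hyU).1 h).2 (by rw [hft₁]; exact lt_irrefl 0)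
  -- the second segment
  set y := x + t₁ • v with hy
  set v' := refl (g y) v with hv'def
  have hg0 : g y ≠ 0 := by
    intro h
    have := K1 y v (by linarith) hv0
    rw [h, inner_zero_left] at this
    linarith
  have hv'M : ‖v'‖ ≤ M := by rw [hv'def, norm_refl hg0]; exact hvM
  have hv'ν : ⟪v', ν⟫ < -c := K2 y v (by linarith) hv0
  have hhy : ⟪y - p, ν⟫ = t₁ * ⟪v, ν⟫ := by
    have : y - p = (x - p) + t₁ • v := by rw [hy]; abel
    rw [this, inner_add_left, hx3, real_inner_smul_left, zero_add]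
  have hvν := K4 v hv0
  set t₂ : ℝ := t₁ * ⟪v, ν⟫ / (-⟪v', ν⟫) with ht₂def
  have hd0 : 0 < -⟪v', ν⟫ := by linarith
  have ht₂0 : 0 < t₂ := div_pos (mul_pos ht₁0 hvν) hd0
  have ht₂ : M * t₂ ≤ r / 4 := by
    refine le_trans (mul_le_mul_of_nonneg_left ?_ hM0.le) hτ2
    have h1 : ⟪v, ν⟫ ≤ M * ‖ν‖ :=
      (real_inner_le_norm v ν).trans (mul_le_mul_of_nonneg_right hvM hν.le)
    rw [ht₂def]
    refine div_le_div₀ (by positivity) (mul_le_mul ht₁.2 h1 hvν.le hτ.le) hc0 (by linarith)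
  have hball2 : ∀ s : ℝ, 0 ≤ s → s ≤ t₂ → dist (y + s • v') p < r := by
    intro s hs hs'
    have h1 : dist (y + s • v') p ≤ dist y p + ‖s • v'‖ := by
      rw [dist_eq_norm, dist_eq_norm]
      calc ‖y + s • v' - p‖ = ‖(y - p) + s • v'‖ := by congr 1; abel
        _ ≤ _ := norm_add_le _ _
    rw [norm_smul, Real.norm_eq_abs, abs_of_nonneg hs] at h1
    have h2 : s * ‖v'‖ ≤ t₂ * M := mul_le_mul hs' hv'M (norm_nonneg _) ht₂0.le
    linarith
  have hd2 : ∀ s ∈ Icc 0 t₂, HasDerivAt (fun s : ℝ => ψ (y + s • v')) ⟪g (y + s • v'), v'⟫ s :=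
    fun s hs => hasDerivAt_line (hgrad _ (K5 _ (hball2 s hs.1 hs.2)))
  have hmono : StrictMonoOn (fun s : ℝ => ψ (y + s • v')) (Icc 0 t₂) := by
    refine strictMonoOn_of_deriv_pos (convex_Icc 0 t₂)
      (fun s hs => (hd2 s hs).continuousAt.continuousWithinAt) fun s hs => ?_
    rw [interior_Icc] at hs
    rw [(hd2 s (Ioo_subset_Icc_self hs)).deriv]
    exact K3 _ y v (hball2 s hs.1.le hs.2.le) (by linarith) hv0
  have hpos2 : ∀ s, 0 < s → s ≤ t₂ → 0 < ψ (y + s • v') := by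
    intro s hs hs'
    have := hmono ⟨le_rfl, ht₂0.le⟩ ⟨hs.le, hs'⟩ hs
    simp only [zero_smul, add_zero] at this
    rw [hft₁] at this
    exact this
  have hzV : y + t₂ • v' ∉ B.V := by
    intro h
    have h1 := ((hV _ (K5 _ (hball2 t₂ ht₂0.le le_rfl))).1 h).1
    have h2 : y + t₂ • v' - p = (y - p) + t₂ • v' := by abel
    rw [h2, inner_add_left, hhy, real_inner_smul_left, ht₂def] at h1
    have hne : ⟪v', ν⟫ ≠ 0 := ne_of_lt (by linarith)
    have h3 : t₁ * ⟪v, ν⟫ / (-⟪v', ν⟫) * ⟪v', ν⟫ = -(t₁ * ⟪v, ν⟫) := by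
      rw [div_neg, neg_mul, div_mul_cancel₀ _ hne]
    rw [h3] at h1
    linarith
  -- no ray from `y` with velocity `v'` reaches `F'`
  have hno2 : ¬ Leaves B F' y v' := by
    intro h
    cases h with
    | @exit _ _ t ht hVt hFt =>
      rcases le_or_gt t t₂ with h1 | h1
      · exact hF' _ (K5 _ (hball2 t ht.le h1)) hFt
      · exact hzV (hVt t₂ ⟨ht₂0, h1⟩)
    | @bounce _ _ t ht hVt hWt _ =>
      rcases le_or_gt t t₂ with h1 | h1
      · have h2 := ((hW _ (K5 _ (hball2 t ht.le h1))).1 hWt).2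
        exact absurd h2 (hpos2 t ht h1).ne'
      · exact hzV (hVt t₂ ⟨ht₂0, h1⟩)
  cases hL with
  | @exit _ _ t ht hVt hFt =>
    rcases le_or_gt t t₁ with h1 | h1
    · exact hF' _ (K5 _ (by linarith [hball t ht.le (h1.trans ht₁.2)])) hFt
    · exact hyV (hVt t₁ ⟨ht₁0, h1⟩)
  | @bounce _ _ t ht hVt hWt hLt =>
    rcases lt_trichotomy t t₁ with h1 | h1 | h1
    · have h2 := ((hW _ (K5 _ (by linarith [hball t ht.le (h1.le.trans ht₁.2)]))).1 hWt).2
      exact absurd h2 (hpos1 t ht.le h1).ne'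
    · subst h1
      rw [refl_eq (w := g y) (hn _ hyU hWt)] at hLt
      exact hno2 hLt
    · exact hyV (hVt t₁ ⟨ht₁0, h1⟩)

/-- **Theorem.** In an optical fiber, at every regular edge point of either end the inner normal
`m` of the walls and the inner normal `ν` of the end satisfy `⟪m, ν⟫ ≥ 0`: the interior angle
between the walls and the end is at least `π / 2`. -/
theorem result (B : Body) (hφ₁ : Continuous B.φ₁) (hφ₂ : Continuous B.φ₂) (hG₁ : IsOpen B.G₁)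
    (hG₂ : IsOpen B.G₂) (h : IsOpticalFiber B) (p m : E3) :
    (EdgeAt B B.F₁ B.F₂ B.ν₁ p m → 0 ≤ ⟪m, B.ν₁⟫) ∧
      (EdgeAt B B.F₂ B.F₁ B.ν₂ p m → 0 ≤ ⟪m, B.ν₂⟫) :=
  ⟨fun he => edge B hφ₁ hG₁ rfl h.forth he, fun he => edge B hφ₂ hG₂ rfl h.back he⟩

end Pool.Agent.Results.MP_4387b1_gt.EdgeAngles
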