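import Pool.Agent.OF54.Defs

/-!
# Optical fibers that are solids of revolution

A solid of revolution `x² + y² < R(z)²`, `a < z < b`, with disc ends is an optical fiber only if
`R` is constant; then the planes orthogonal to the axis slice it orthogonally.
-/

open MeasureTheory Set
open scoped RealInnerProductSpace
open Pool.Agent.OF54

namespace Pool.Agent.Results.MP_4387b1_gt.SolidsOfRevolution

/-- The gradient of `x² + y² - R(z)²`, divided by `2`. -/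
noncomputable def grad (R : ℝ → ℝ) (p : E3) : E3 :=
  !₂[p 0, p 1, -(R (p 2) * deriv R (p 2))]

/-- The solid of revolution with profile `R` over `(a, b)`: walls `x² + y² = R(z)²`, ends the
discs `z = a`, `z = b`. -/
noncomputable def revolution (a b : ℝ) (R : ℝ → ℝ) : Body where
  V := {p | a < p 2 ∧ p 2 < b ∧ p 0 ^ 2 + p 1 ^ 2 < R (p 2) ^ 2}
  walls := {p | a < p 2 ∧ p 2 < b ∧ p 0 ^ 2 + p 1 ^ 2 = R (p 2) ^ 2}
  n := fun p => ‖grad R p‖⁻¹ • grad R p
  φ₁ := fun u => !₂[u 0, u 1, a]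
  φ₂ := fun u => !₂[u 0, u 1, b]
  G₁ := {u | u 0 ^ 2 + u 1 ^ 2 < R a ^ 2}
  G₂ := {u | u 0 ^ 2 + u 1 ^ 2 < R b ^ 2}
  ν₁ := !₂[0, 0, 1]
  ν₂ := !₂[0, 0, -1]

/-- Angular momentum about the axis. -/
def ang (p v : E3) : ℝ := p 0 * v 1 - p 1 * v 0

theorem ang_add (p v : E3) (t : ℝ) : ang (p + t • v) v = ang p v := by
  simp only [ang, PiLp.add_apply, PiLp.smul_apply, smul_eq_mul]; ring

theorem ang_sq_le (p v : E3) {ρ : ℝ} (h : p 0 ^ 2 + p 1 ^ 2 ≤ ρ ^ 2) :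
    ang p v ^ 2 ≤ ρ ^ 2 * ‖v‖ ^ 2 := by
  rw [norm_sq_eq]
  have h1 : ang p v ^ 2 ≤ (p 0 ^ 2 + p 1 ^ 2) * (v 0 ^ 2 + v 1 ^ 2) := by
    unfold ang
    nlinarith [sq_nonneg (p 0 * v 0 + p 1 * v 1)]
  have h2 : (p 0 ^ 2 + p 1 ^ 2) * (v 0 ^ 2 + v 1 ^ 2) ≤ ρ ^ 2 * (v 0 ^ 2 + v 1 ^ 2) :=
    mul_le_mul_of_nonneg_right h (by positivity)
  nlinarith [sq_nonneg (ρ * v 2)]

variable {a b : ℝ} {R : ℝ → ℝ}

theorem norm_n {p : E3} (hR : ∀ z ∈ Icc a b, 0 < R z) (hp : p ∈ (revolution a b R).walls) :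
    ‖(revolution a b R).n p‖ = 1 := by
  have h0 : grad R p ≠ 0 := by
    intro h
    have e0 : p 0 = 0 := by
      have := congrArg (fun x : E3 => x 0) h
      simpa [grad] using this
    have e1 : p 1 = 0 := by
      have := congrArg (fun x : E3 => x 1) h
      simpa [grad] using this
    have h1 := hp.2.2
    rw [e0, e1] at h1
    have h2 := hR (p 2) ⟨hp.1.le, hp.2.1.le⟩
    have h3 : 0 < R (p 2) ^ 2 := by positivity
    nlinarith
  change ‖‖grad R p‖⁻¹ • grad R p‖ = 1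
  rw [norm_smul, norm_inv, norm_norm]
  exact inv_mul_cancel₀ (norm_ne_zero_iff.2 h0)

theorem ang_reflect (p v : E3) (k : ℝ) :
    ang p (v - k • (revolution a b R).n p) = ang p v := by
  change ang p (v - k • (‖grad R p‖⁻¹ • grad R p)) = ang p v
  simp only [ang, PiLp.sub_apply, PiLp.smul_apply, smul_eq_mul, grad, Fin.isValue,
    Matrix.cons_val_zero, Matrix.cons_val_one]
  ring

/-- A ray that leaves through a set of radius at most `ρ` has angular momentum at most `ρ‖v‖`. -/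
theorem exit_bound (hR : ∀ z ∈ Icc a b, 0 < R z) {F : Set E3} {ρ : ℝ}
    (hF : ∀ q ∈ F, q 0 ^ 2 + q 1 ^ 2 ≤ ρ ^ 2) {p v : E3}
    (h : Leaves (revolution a b R) F p v) : ang p v ^ 2 ≤ ρ ^ 2 * ‖v‖ ^ 2 := by
  induction h with
  | @exit p v t ht hV hq =>
    rw [← ang_add p v t]
    exact ang_sq_le _ _ (hF _ hq)
  | @bounce p v t ht hV hW h ih =>
    rw [ang_reflect, norm_reflect (norm_n hR hW), ang_add] at ih
    exact ih

/-- A ray that starts not above the level `z₀` and leaves through a set above it passes the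
level `z₀`, so that its angular momentum is at most `R(z₀)‖v‖`. -/
theorem neck (hR : ∀ z ∈ Icc a b, 0 < R z) {F : Set E3} {z₀ : ℝ}
    (hF : ∀ q ∈ F, z₀ < q 2) {p v : E3} (h : Leaves (revolution a b R) F p v)
    (hp : p 2 ≤ z₀) (hi : p 0 ^ 2 + p 1 ^ 2 ≤ R (p 2) ^ 2) :
    ang p v ^ 2 ≤ R z₀ ^ 2 * ‖v‖ ^ 2 := by
  have key : ∀ (p v : E3) (t : ℝ), 0 < t → (∀ s ∈ Ioo 0 t, p + s • v ∈ (revolution a b R).V) →
      z₀ < (p + t • v) 2 → p 2 ≤ z₀ → p 0 ^ 2 + p 1 ^ 2 ≤ R (p 2) ^ 2 →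
      ang p v ^ 2 ≤ R z₀ ^ 2 * ‖v‖ ^ 2 := by
    intro p v t ht hV hq hp hi
    rcases hp.eq_or_lt with h0 | h0
    · rw [← h0]; exact ang_sq_le _ _ hi
    · have hq' : z₀ < p 2 + t * v 2 := by simpa using hq
      have hv : 0 < v 2 := by
        by_contra hneg
        push Not at hneg
        nlinarith [mul_nonneg ht.le (neg_nonneg.2 hneg)]
      set s := (z₀ - p 2) / v 2 with hs
      have hs1 : 0 < s := div_pos (by linarith) hv
      have hs2 : s < t := by rw [hs, div_lt_iff₀ hv]; linarith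
      have h3 := hV s ⟨hs1, hs2⟩
      have h4 : (p + s • v) 2 = z₀ := by
        simp only [PiLp.add_apply, PiLp.smul_apply, smul_eq_mul, hs]
        field_simp
        ring
      have h5 := h3.2.2
      rw [h4] at h5
      rw [← ang_add p v s]
      exact ang_sq_le _ _ h5.le
  induction h with
  | @exit p v t ht hV hq => exact key p v t ht hV (hF _ hq) hp hi
  | @bounce p v t ht hV hW h ih =>
    rcases le_or_gt ((p + t • v) 2) z₀ with h1 | h1
    · have := ih h1 hW.2.2.le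
      rw [ang_reflect, norm_reflect (norm_n hR hW), ang_add] at this
      exact this
    · exact key p v t ht hV h1 hp hi

theorem isOpen_velocities (p : E3) (ν : E3) (ρ : ℝ) :
    IsOpen {v : E3 | 0 < ⟪v, ν⟫ ∧ ρ ^ 2 * ‖v‖ ^ 2 < ang p v ^ 2} := by
  have h1 : IsOpen {v : E3 | (0 : ℝ) < ⟪v, ν⟫} := isOpen_lt continuous_const (by fun_prop)
  have h2 : IsOpen {v : E3 | ρ ^ 2 * ‖v‖ ^ 2 < ang p v ^ 2} :=
    isOpen_lt (by fun_prop) (by unfold ang; fun_prop)
  exact h1.inter h2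

theorem exists_velocity {p : E3} {ρ c : ℝ} (hc : c ≠ 0) (h : ρ ^ 2 < p 0 ^ 2 + p 1 ^ 2) :
    {v : E3 | 0 < ⟪v, (!₂[0, 0, c] : E3)⟫ ∧ ρ ^ 2 * ‖v‖ ^ 2 < ang p v ^ 2}.Nonempty := by
  set r := p 0 ^ 2 + p 1 ^ 2 with hr
  have hr0 : 0 < r := lt_of_le_of_lt (sq_nonneg ρ) h
  set δ := r * (r - ρ ^ 2) with hδ
  have hδ0 : 0 < δ := mul_pos hr0 (by linarith)
  set ε := Real.sqrt (δ / (ρ ^ 2 + 1)) with hε
  have hε0 : 0 < ε := Real.sqrt_pos.2 (div_pos hδ0 (by positivity))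
  have hε2 : ε ^ 2 * (ρ ^ 2 + 1) = δ := by
    rw [hε, Real.sq_sqrt (div_pos hδ0 (by positivity)).le]
    field_simp
  have hsgn : 0 < (SignType.sign c : ℝ) * c := by
    rw [sign_mul_self]; exact abs_pos.2 hc
  have hsq : ((SignType.sign c : ℝ)) ^ 2 = 1 := by
    rcases lt_or_gt_of_ne hc with h1 | h1
    · simp [sign_neg h1]
    · simp [sign_pos h1]
  refine ⟨!₂[-p 1, p 0, (SignType.sign c : ℝ) * ε], ?_, ?_⟩
  · rw [inner_eq]
    simp only [Fin.isValue, Matrix.cons_val_zero, Matrix.cons_val_one,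
      Matrix.cons_val, mul_zero, zero_add]
    nlinarith [mul_pos hsgn hε0]
  · rw [norm_sq_eq]
    simp only [ang, Fin.isValue, Matrix.cons_val_zero, Matrix.cons_val_one,
      Matrix.cons_val]
    have h1 : ((SignType.sign c : ℝ) * ε) ^ 2 = ε ^ 2 := by rw [mul_pow, hsq, one_mul]
    rw [h1]
    have h2 : (p 0 * p 0 - p 1 * -p 1) ^ 2 = r ^ 2 := by rw [hr]; ring
    have h3 : (-p 1) ^ 2 + p 0 ^ 2 + ε ^ 2 = r + ε ^ 2 := by rw [hr]; ring
    rw [h2, h3]
    nlinarith [sq_nonneg ε, hε2, pow_pos hε0 2]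

theorem isOpen_disc {ρ r : ℝ} : IsOpen {u : E2 | ρ ^ 2 < u 0 ^ 2 + u 1 ^ 2 ∧
    u 0 ^ 2 + u 1 ^ 2 < r ^ 2} := by
  have h1 : IsOpen {u : E2 | ρ ^ 2 < u 0 ^ 2 + u 1 ^ 2} :=
    isOpen_lt continuous_const (by fun_prop)
  have h2 : IsOpen {u : E2 | u 0 ^ 2 + u 1 ^ 2 < r ^ 2} :=
    isOpen_lt (by fun_prop) continuous_const
  exact h1.inter h2

theorem nonempty_disc {ρ r : ℝ} (h0 : 0 ≤ ρ) (h : ρ < r) :
    {u : E2 | ρ ^ 2 < u 0 ^ 2 + u 1 ^ 2 ∧ u 0 ^ 2 + u 1 ^ 2 < r ^ 2}.Nonempty := by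
  refine ⟨!₂[(ρ + r) / 2, 0], ?_, ?_⟩
  · simp only [Fin.isValue, Matrix.cons_val_zero, Matrix.cons_val_one]
    nlinarith
  · simp only [Fin.isValue, Matrix.cons_val_zero, Matrix.cons_val_one]
    nlinarith

theorem F₁_radius {q : E3} (hq : q ∈ (revolution a b R).F₁) :
    q 0 ^ 2 + q 1 ^ 2 < R a ^ 2 ∧ q 2 = a := by
  obtain ⟨u, hu, rfl⟩ := hq
  exact ⟨by simpa [revolution] using hu, by simp [revolution]⟩

theorem F₂_radius {q : E3} (hq : q ∈ (revolution a b R).F₂) :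
    q 0 ^ 2 + q 1 ^ 2 < R b ^ 2 ∧ q 2 = b := by
  obtain ⟨u, hu, rfl⟩ := hq
  exact ⟨by simpa [revolution] using hu, by simp [revolution]⟩

/-- If all rays from the first end to `F₂` have angular momentum at most `ρ‖v‖`, then
`R a ≤ ρ`. -/
theorem le_of_forth (h : IsOpticalFiber (revolution a b R)) {ρ : ℝ} (hρ : 0 ≤ ρ)
    (hb : ∀ u : E2, u 0 ^ 2 + u 1 ^ 2 < R a ^ 2 → ∀ v : E3,
      Leaves (revolution a b R) (revolution a b R).F₂ (!₂[u 0, u 1, a]) v →
      ang (!₂[u 0, u 1, a]) v ^ 2 ≤ ρ ^ 2 * ‖v‖ ^ 2) : R a ≤ ρ := by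
  by_contra hlt
  push Not at hlt
  obtain ⟨u, hu, hu'⟩ := exists_of_ae_restrict h.forth (isOpen_disc (ρ := ρ) (r := R a))
    (fun u hu => hu.2) (nonempty_disc hρ hlt)
  obtain ⟨v, hv, hv'⟩ := exists_of_ae hu' (isOpen_velocities (!₂[u 0, u 1, a]) (!₂[0, 0, 1]) ρ)
    (exists_velocity one_ne_zero (by simpa using hu.1))
  have := hb u hu.2 v (hv' hv.1)
  exact absurd hv.2 (not_lt.2 this)

theorem le_of_back (h : IsOpticalFiber (revolution a b R)) {ρ : ℝ} (hρ : 0 ≤ ρ)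
    (hb : ∀ u : E2, u 0 ^ 2 + u 1 ^ 2 < R b ^ 2 → ∀ v : E3,
      Leaves (revolution a b R) (revolution a b R).F₁ (!₂[u 0, u 1, b]) v →
      ang (!₂[u 0, u 1, b]) v ^ 2 ≤ ρ ^ 2 * ‖v‖ ^ 2) : R b ≤ ρ := by
  by_contra hlt
  push Not at hlt
  obtain ⟨u, hu, hu'⟩ := exists_of_ae_restrict h.back (isOpen_disc (ρ := ρ) (r := R b))
    (fun u hu => hu.2) (nonempty_disc hρ hlt)
  obtain ⟨v, hv, hv'⟩ := exists_of_ae hu' (isOpen_velocities (!₂[u 0, u 1, b]) (!₂[0, 0, -1]) ρ)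
    (exists_velocity (by norm_num) (by simpa using hu.1))
  have := hb u hu.2 v (hv' hv.1)
  exact absurd hv.2 (not_lt.2 this)

/-- **Theorem.** If a solid of revolution with disc ends is an optical fiber, then its radius is
constant, and it is sliced orthogonally. -/
theorem result (a b : ℝ) (hab : a < b) (R : ℝ → ℝ) (hR : ∀ z ∈ Icc a b, 0 < R z)
    (hc : ContinuousOn R (Icc a b)) (h : IsOpticalFiber (revolution a b R)) :
    (∀ z ∈ Icc a b, R z = R a) ∧ SlicedOrthogonally (revolution a b R) := by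
  have ha : a ∈ Icc a b := ⟨le_rfl, hab.le⟩
  have hb : b ∈ Icc a b := ⟨hab.le, le_rfl⟩
  have h1 : R a ≤ R b := le_of_forth h (hR b hb).le fun u hu v hL =>
    exit_bound hR (fun q hq => (F₂_radius hq).1.le) hL
  have h2 : R b ≤ R a := le_of_back h (hR a ha).le fun u hu v hL =>
    exit_bound hR (fun q hq => (F₁_radius hq).1.le) hL
  have h3 : ∀ z ∈ Ioo a b, R a ≤ R z := by
    intro z hz
    refine le_of_forth h (hR z ⟨hz.1.le, hz.2.le⟩).le fun u hu v hL => ?_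
    refine neck hR (fun q hq => by rw [(F₂_radius hq).2]; exact hz.2) hL ?_ ?_
    · simpa using hz.1.le
    · simpa using hu.le
  have h4 : ∀ z ∈ Ioo a b, R z ≤ R a := by
    intro z hz
    by_contra hlt
    push Not at hlt
    have hRa := hR a ha
    have hopen1 : IsOpen {p : E3 | p 2 ∈ Ioo a b} :=
      isOpen_Ioo.preimage (by fun_prop : Continuous fun p : E3 => p 2)
    have hcont : ContinuousOn (fun p : E3 => R (p 2) ^ 2 - (p 0 ^ 2 + p 1 ^ 2))
        {p : E3 | p 2 ∈ Ioo a b} := by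
      refine ContinuousOn.sub (ContinuousOn.pow (ContinuousOn.comp hc
        (by fun_prop : Continuous fun p : E3 => p 2).continuousOn ?_) 2) (by fun_prop)
      intro p hp
      exact Ioo_subset_Icc_self hp
    have hopen2 := hcont.isOpen_inter_preimage hopen1 (isOpen_Ioi (a := (0 : ℝ)))
    have hopen3 : IsOpen {p : E3 | R a ^ 2 < p 0 ^ 2 + p 1 ^ 2} :=
      isOpen_lt continuous_const (by fun_prop)
    obtain ⟨p, hp, hp'⟩ := exists_of_ae_restrict h.inside (hopen2.inter hopen3)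
      (fun p hp => ⟨hp.1.1.1, hp.1.1.2, sub_pos.1 hp.1.2⟩)
      ⟨!₂[(R a + R z) / 2, 0, z], ⟨by simpa using hz, by
        simp only [mem_preimage, mem_Ioi, Fin.isValue, Matrix.cons_val_zero,
          Matrix.cons_val_one, Matrix.cons_val]
        nlinarith⟩, by
        simp only [mem_ofPred_eq, Fin.isValue, Matrix.cons_val_zero, Matrix.cons_val_one]
        nlinarith⟩
    have hopen4 : IsOpen {v : E3 | R a ^ 2 * ‖v‖ ^ 2 < ang p v ^ 2} :=
      isOpen_lt (by fun_prop) (by unfold ang; fun_prop)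
    have hp2 : R a ^ 2 < p 0 ^ 2 + p 1 ^ 2 := hp.2
    obtain ⟨v, hv, hv'⟩ := exists_of_ae hp' hopen4 ⟨!₂[-p 1, p 0, 0], by
      simp only [mem_ofPred_eq, norm_sq_eq, ang, Fin.isValue, Matrix.cons_val_zero,
        Matrix.cons_val_one, Matrix.cons_val]
      nlinarith [pow_pos hRa 2]⟩
    refine absurd hv (not_lt.2 (exit_bound hR ?_ hv'))
    rintro q (hq | hq)
    · exact (F₁_radius hq).1.le
    · rw [le_antisymm h1 h2]
      exact (F₂_radius hq).1.le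
  have hconst : ∀ z ∈ Icc a b, R z = R a := by
    intro z hz
    rcases hz.1.eq_or_lt with e | e
    · rw [e]
    rcases hz.2.eq_or_lt with e' | e'
    · rw [e']; exact le_antisymm h2 h1
    exact le_antisymm (h4 z ⟨e, e'⟩) (h3 z ⟨e, e'⟩)
  refine ⟨hconst, a, b, fun _ => !₂[0, 0, 1], fun t => t, hab, continuousOn_const,
    continuousOn_id, ?_, ?_, ?_, ?_, ?_⟩
  · intro t _
    rw [← sq_eq_sq₀ (norm_nonneg _) zero_le_one, norm_sq_eq]
    simp
  · intro p hp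
    have hp2 : p 2 ∈ Icc a b := by
      rcases hp with ((hp | hp) | hp) | hp
      · exact ⟨hp.1.le, hp.2.1.le⟩
      · exact ⟨hp.1.le, hp.2.1.le⟩
      · rw [(F₁_radius hp).2]; exact ha
      · rw [(F₂_radius hp).2]; exact hb
    refine ⟨p 2, ⟨hp2, by simp [inner_eq]⟩, ?_⟩
    rintro t ⟨_, ht⟩
    simpa [inner_eq] using ht.symm
  · intro p hp
    simpa [inner_eq] using (F₁_radius hp).2
  · intro p hp
    simpa [inner_eq] using (F₂_radius hp).2
  · intro t _ p hp _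
    have hd : deriv R (p 2) = 0 := by
      have : R =ᶠ[nhds (p 2)] fun _ => R a := by
        filter_upwards [isOpen_Ioo.mem_nhds ⟨hp.1, hp.2.1⟩] with z hz
        exact hconst z (Ioo_subset_Icc_self hz)
      rw [this.deriv_eq, deriv_const]
    change ⟪‖grad R p‖⁻¹ • grad R p, _⟫ = (0 : ℝ)
    rw [inner_eq]
    simp [grad, hd]

end Pool.Agent.Results.MP_4387b1_gt.SolidsOfRevolution
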