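import Pool.Agent.OF54.Defs

/-!
# Optical fibers with walls orthogonal to a family of planes

If the walls of an optical fiber are orthogonal to a family of planes that pass through the body in
order, then both ends, which may be any plane figures, lie in planes of the family, and the body is
sliced orthogonally.
-/

open MeasureTheory Set Filter Topology
open scoped RealInnerProductSpace
open Pool.Agent.OF54

namespace Pool.Agent.Results.MP_4387b1_gt.TubeWalls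

/-- The planes `⟪x, m s⟫ = c s`, `a ≤ s ≤ b`, pass through the set `S` in order: every point `x` of
`S` lies in the plane with `s = t x`, on the positive side of the earlier planes and on the
negative side of the later ones. -/
structure Passes (S : Set E3) (a b : ℝ) (m : ℝ → E3) (c : ℝ → ℝ) (t : E3 → ℝ) : Prop where
  cont_m : ContinuousOn m (Icc a b)
  cont_c : ContinuousOn c (Icc a b)
  norm_eq : ∀ s ∈ Icc a b, ‖m s‖ = 1
  mem : ∀ x ∈ S, t x ∈ Icc a b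
  eq : ∀ x ∈ S, ⟪x, m (t x)⟫ = c (t x)
  pos : ∀ x ∈ S, ∀ s ∈ Icc a b, s < t x → c s < ⟪x, m s⟫
  neg : ∀ x ∈ S, ∀ s ∈ Icc a b, t x < s → ⟪x, m s⟫ < c s

/-- All points of the body, of its walls and of its ends. -/
def pts (B : Body) : Set E3 := B.V ∪ B.walls ∪ B.F₁ ∪ B.F₂

variable {B : Body} {a b : ℝ} {m : ℝ → E3} {c : ℝ → ℝ} {t : E3 → ℝ}

theorem lt_of_neg {S : Set E3} (hp : Passes S a b m c t) {x : E3} (hx : x ∈ S) {s : ℝ}
    (hs : s ∈ Icc a b) (h : ⟪x, m s⟫ < c s) : t x < s := by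
  rcases lt_trichotomy s (t x) with h1 | h1 | h1
  · exact absurd (hp.pos x hx s hs h1) (not_lt.2 h.le)
  · rw [h1, hp.eq x hx] at h; exact absurd h (lt_irrefl _)
  · exact h1

theorem lt_of_pos {S : Set E3} (hp : Passes S a b m c t) {x : E3} (hx : x ∈ S) {s : ℝ}
    (hs : s ∈ Icc a b) (h : c s < ⟪x, m s⟫) : s < t x := by
  rcases lt_trichotomy s (t x) with h1 | h1 | h1
  · exact h1
  · rw [h1, hp.eq x hx] at h; exact absurd h (lt_irrefl _)
  · exact absurd (hp.neg x hx s hs h1) (not_lt.2 h.le)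

theorem eq_of_eq {S : Set E3} (hp : Passes S a b m c t) {x : E3} (hx : x ∈ S) {s : ℝ}
    (hs : s ∈ Icc a b) (h : ⟪x, m s⟫ = c s) : t x = s := by
  rcases lt_trichotomy s (t x) with h1 | h1 | h1
  · exact absurd (hp.pos x hx s hs h1) (by rw [h]; exact lt_irrefl _)
  · exact h1.symm
  · exact absurd (hp.neg x hx s hs h1) (by rw [h]; exact lt_irrefl _)

/-- The parameter `t` is continuous. -/
theorem cont_t {S : Set E3} (hp : Passes S a b m c t) : ContinuousOn t S := by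
  intro x hx
  have hxm := hp.mem x hx
  refine tendsto_order.2 ⟨fun s hs => ?_, fun s hs => ?_⟩
  · by_cases hsa : s < a
    · filter_upwards [self_mem_nhdsWithin] with y hy
      exact hsa.trans_le (hp.mem y hy).1
    · have hsI : s ∈ Icc a b := ⟨not_lt.1 hsa, hs.le.trans hxm.2⟩
      have h1 : ∀ᶠ y in 𝓝 x, c s < ⟪y, m s⟫ :=
        continuousAt_const.eventually_lt (continuousAt_id.inner continuousAt_const)
          (hp.pos x hx s hsI hs)
      filter_upwards [self_mem_nhdsWithin, mem_nhdsWithin_of_mem_nhds h1] with y hy hy'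
      exact lt_of_pos hp hy hsI hy'
  · by_cases hsb : b < s
    · filter_upwards [self_mem_nhdsWithin] with y hy
      exact (hp.mem y hy).2.trans_lt hsb
    · have hsI : s ∈ Icc a b := ⟨hxm.1.trans hs.le, not_lt.1 hsb⟩
      have h1 : ∀ᶠ y in 𝓝 x, ⟪y, m s⟫ < c s :=
        (continuousAt_id.inner continuousAt_const).eventually_lt continuousAt_const
          (hp.neg x hx s hsI hs)
      filter_upwards [self_mem_nhdsWithin, mem_nhdsWithin_of_mem_nhds h1] with y hy hy'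
      exact lt_of_neg hp hy hsI hy'

theorem step_neg {S : Set E3} (hp : Passes S a b m c t) {p v : E3} {τ : ℝ} (hpS : p ∈ S)
    (hτ : 0 < τ) (hq : p + τ • v ∈ S) (hv : ⟪v, m (t p)⟫ < 0) :
    t (p + τ • v) < t p ∧ ⟪v, m (t (p + τ • v))⟫ < 0 := by
  have h1 : t (p + τ • v) < t p := by
    refine lt_of_neg hp hq (hp.mem p hpS) ?_
    rw [inner_add_left, real_inner_smul_left, hp.eq p hpS]
    nlinarith
  refine ⟨h1, ?_⟩
  have h2 := hp.pos p hpS _ (hp.mem _ hq) h1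
  have h3 := hp.eq _ hq
  rw [inner_add_left, real_inner_smul_left] at h3
  nlinarith

theorem step_pos {S : Set E3} (hp : Passes S a b m c t) {p v : E3} {τ : ℝ} (hpS : p ∈ S)
    (hτ : 0 < τ) (hq : p + τ • v ∈ S) (hv : 0 < ⟪v, m (t p)⟫) :
    t p < t (p + τ • v) ∧ 0 < ⟪v, m (t (p + τ • v))⟫ := by
  have h1 : t p < t (p + τ • v) := by
    refine lt_of_pos hp hq (hp.mem p hpS) ?_
    rw [inner_add_left, real_inner_smul_left, hp.eq p hpS]
    nlinarith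
  refine ⟨h1, ?_⟩
  have h2 := hp.neg p hpS _ (hp.mem _ hq) h1
  have h3 := hp.eq _ hq
  rw [inner_add_left, real_inner_smul_left] at h3
  nlinarith

theorem inner_refl {v n w : E3} (h : ⟪n, w⟫ = 0) : ⟪v - (2 * ⟪v, n⟫) • n, w⟫ = ⟪v, w⟫ := by
  rw [inner_sub_left, real_inner_smul_left, h, mul_zero, sub_zero]

theorem walls_pts {q : E3} (h : q ∈ B.walls) : q ∈ pts B := Or.inl (Or.inl (Or.inr h))

theorem leaves_neg (hp : Passes (pts B) a b m c t) (hn : ∀ q ∈ B.walls, ⟪B.n q, m (t q)⟫ = 0)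
    {F : Set E3} (hF : F ⊆ pts B) {p v : E3} (hL : Leaves B F p v) (hpS : p ∈ pts B)
    (hv : ⟪v, m (t p)⟫ < 0) : ∃ y ∈ F, t y < t p := by
  induction hL with
  | exit hτ hV hFt => exact ⟨_, hFt, (step_neg hp hpS hτ (hF hFt) hv).1⟩
  | bounce hτ hV hWt _ ih =>
    have hq := walls_pts hWt
    obtain ⟨h1, h2⟩ := step_neg hp hpS hτ hq hv
    obtain ⟨y, hy, hy'⟩ := ih hq (by rw [inner_refl (hn _ hWt)]; exact h2)
    exact ⟨y, hy, hy'.trans h1⟩

theorem leaves_pos (hp : Passes (pts B) a b m c t) (hn : ∀ q ∈ B.walls, ⟪B.n q, m (t q)⟫ = 0)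
    {F : Set E3} (hF : F ⊆ pts B) {p v : E3} (hL : Leaves B F p v) (hpS : p ∈ pts B)
    (hv : 0 < ⟪v, m (t p)⟫) : ∃ y ∈ F, t p < t y := by
  induction hL with
  | exit hτ hV hFt => exact ⟨_, hFt, (step_pos hp hpS hτ (hF hFt) hv).1⟩
  | bounce hτ hV hWt _ ih =>
    have hq := walls_pts hWt
    obtain ⟨h1, h2⟩ := step_pos hp hpS hτ hq hv
    obtain ⟨y, hy, hy'⟩ := ih hq (by rw [inner_refl (hn _ hWt)]; exact h2)
    exact ⟨y, hy, h1.trans hy'⟩

/-- If every `v` with `⟪v, ν⟫ > 0` has `⟪v, w⟫ ≥ 0`, then `ν` is a positive multiple of the unit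
vector `w`. -/
theorem parallel {ν w : E3} (hν : ν ≠ 0) (hw : ‖w‖ = 1) (h : ∀ v : E3, 0 < ⟪v, ν⟫ → 0 ≤ ⟪v, w⟫) :
    ∃ l : ℝ, 0 < l ∧ ν = l • w := by
  have hν2 : 0 < ‖ν‖ := norm_pos_iff.2 hν
  have hww : ⟪w, w⟫ = (1 : ℝ) := by rw [real_inner_self_eq_norm_sq, hw]; norm_num
  set l : ℝ := ⟪ν, w⟫ with hl
  set r : E3 := ν - l • w with hr
  have hrw : ⟪r, w⟫ = 0 := by
    rw [hr, inner_sub_left, real_inner_smul_left, hww]; ring
  have hνr : ⟪r, ν⟫ = ‖r‖ ^ 2 := by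
    have : ν = r + l • w := by rw [hr]; abel
    conv_lhs => rw [this]
    rw [inner_add_right, real_inner_smul_right, hrw, real_inner_self_eq_norm_sq]; ring
  have hr0 : r = 0 := by
    by_contra hne
    have hrp : 0 < ‖r‖ := norm_pos_iff.2 hne
    -- `v = r - ε w`
    obtain ⟨ε, hε, hε'⟩ : ∃ ε : ℝ, 0 < ε ∧ ε * l < ‖r‖ ^ 2 := by
      refine ⟨‖r‖ ^ 2 / (2 * (|l| + 1)), by positivity, ?_⟩
      have h1 : l ≤ |l| := le_abs_self l
      have h2 : ‖r‖ ^ 2 / (2 * (|l| + 1)) * l ≤ ‖r‖ ^ 2 / (2 * (|l| + 1)) * |l| :=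
        mul_le_mul_of_nonneg_left h1 (by positivity)
      have h3 : ‖r‖ ^ 2 / (2 * (|l| + 1)) * |l| < ‖r‖ ^ 2 := by
        rw [div_mul_eq_mul_div, div_lt_iff₀ (by positivity)]
        have : 0 < ‖r‖ ^ 2 := by positivity
        nlinarith [abs_nonneg l]
      linarith
    have h1 : 0 < ⟪r - ε • w, ν⟫ := by
      rw [inner_sub_left, hνr, real_inner_smul_left, real_inner_comm, ← hl]
      linarith
    have h2 := h _ h1
    rw [inner_sub_left, hrw, real_inner_smul_left, hww] at h2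
    linarith
  have hνl : ν = l • w := by
    have : ν = r + l • w := by rw [hr]; abel
    rw [this, hr0, zero_add]
  refine ⟨l, ?_, hνl⟩
  have h1 := h ν (by rw [real_inner_self_eq_norm_sq]; positivity)
  rcases h1.eq_or_lt with h2 | h2
  · rw [← hl] at h2
    rw [← h2, zero_smul] at hνl
    exact absurd hνl hν
  · exact h2

/-- Near an end point at which `v₀` points into the body and has a prescribed sign of
`⟪v₀, m (t p)⟫` there is a ray that leaves as prescribed and has the same signs. -/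
theorem exists_ray (hp : Passes (pts B) a b m c t) {G : Set E2} {φ : E2 → E3} {ν : E3} {F : Set E3}
    (hφ : Continuous φ) (hG : IsOpen G) (hφG : φ '' G ⊆ pts B)
    (hfib : ∀ᵐ u ∂(volume.restrict G), ∀ᵐ v : E3, 0 < ⟪v, ν⟫ → Leaves B F (φ u) v)
    {u₀ : E2} (hu₀ : u₀ ∈ G) {v₀ : E3} (hv₀ : 0 < ⟪v₀, ν⟫) (e : ℝ)
    (he : 0 < e * ⟪v₀, m (t (φ u₀))⟫) (P : ℝ → Prop) (hP : ∀ᶠ s in 𝓝 (t (φ u₀)), P s) :
    ∃ u ∈ G, ∃ v : E3, 0 < ⟪v, ν⟫ ∧ 0 < e * ⟪v, m (t (φ u))⟫ ∧ P (t (φ u)) ∧ Leaves B F (φ u) v := by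
  have hct := cont_t hp
  have hc1 : ContinuousAt (fun u => t (φ u)) u₀ := by
    have h1 : ContinuousOn (fun u => t (φ u)) G :=
      hct.comp hφ.continuousOn fun u hu => hφG ⟨u, hu, rfl⟩
    exact h1.continuousAt (hG.mem_nhds hu₀)
  have hc2 : ContinuousAt (fun u => m (t (φ u))) u₀ := by
    have h1 : ContinuousOn (fun u => m (t (φ u))) G :=
      (hp.cont_m.comp hct fun x hx => hp.mem x hx).comp hφ.continuousOn
        fun u hu => hφG ⟨u, hu, rfl⟩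
    exact h1.continuousAt (hG.mem_nhds hu₀)
  have hc3 : ContinuousAt (fun z : E2 × E3 => e * ⟪z.2, m (t (φ z.1))⟫) (u₀, v₀) := by
    refine continuousAt_const.mul (continuousAt_snd.inner ?_)
    exact ContinuousAt.comp (f := Prod.fst) (x := (u₀, v₀)) hc2 continuousAt_fst
  have ev : ∀ᶠ z : E2 × E3 in 𝓝 (u₀, v₀), 0 < e * ⟪z.2, m (t (φ z.1))⟫ ∧ 0 < ⟪z.2, ν⟫ ∧
      P (t (φ z.1)) ∧ z.1 ∈ G := by
    refine (continuousAt_const.eventually_lt hc3 he).and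
      ((continuousAt_const.eventually_lt (continuousAt_snd.inner continuousAt_const) hv₀).and
        (Filter.Eventually.and ?_ ?_))
    · exact (ContinuousAt.comp (f := Prod.fst) (x := (u₀, v₀)) hc1 continuousAt_fst).eventually hP
    · exact (continuousAt_fst (p := (u₀, v₀))).eventually (hG.mem_nhds hu₀)
  rw [nhds_prod_eq] at ev
  obtain ⟨U, hU, W, hW, hUW⟩ := Filter.mem_prod_iff.1 ev
  obtain ⟨U', hU', hU'o, hu'⟩ := mem_nhds_iff.1 hU
  obtain ⟨W', hW', hW'o, hv'⟩ := mem_nhds_iff.1 hW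
  obtain ⟨u, hu, hau⟩ := exists_of_ae_restrict hfib (hG.inter hU'o) (fun u hu => hu.1)
    ⟨u₀, hu₀, hu'⟩
  obtain ⟨v, hv, hav⟩ := exists_of_ae hau hW'o ⟨v₀, hv'⟩
  obtain ⟨h1, h2, h3, h4⟩ := hUW (Set.mk_mem_prod (hU' hu.2) (hW' hv))
  exact ⟨u, hu.1, v, h2, h1, h3, hav h2⟩

/-- **Theorem.** Let the walls of a body with two arbitrary plane ends be orthogonal to the planes
of a family that pass through the body in order, and let some point of the first end come before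
all points of the second end. If the body is an optical fiber, then both ends lie in planes of the
family, orthogonally to the walls, and the body is sliced orthogonally. -/
theorem result (B : Body) (hφ₁ : Continuous B.φ₁) (hφ₂ : Continuous B.φ₂) (hG₁ : IsOpen B.G₁)
    (hG₂ : IsOpen B.G₂) (hV : IsOpen B.V) (hW : B.walls ⊆ closure B.V) (hν₁ : B.ν₁ ≠ 0)
    (hν₂ : B.ν₂ ≠ 0) (k₁ k₂ : ℝ) (h₁ : ∀ x ∈ B.F₁, ⟪x, B.ν₁⟫ = k₁)
    (h₂ : ∀ x ∈ B.F₂, ⟪x, B.ν₂⟫ = k₂) (hne : B.F₂.Nonempty) (a b : ℝ) (m : ℝ → E3) (c : ℝ → ℝ)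
    (t : E3 → ℝ) (hp : Passes (B.V ∪ B.walls ∪ B.F₁ ∪ B.F₂) a b m c t)
    (hn : ∀ q ∈ B.walls, ⟪B.n q, m (t q)⟫ = 0) (s : ℝ) (hs₁ : ∃ x ∈ B.F₁, t x < s)
    (hs₂ : ∀ y ∈ B.F₂, s ≤ t y) (h : IsOpticalFiber B) :
    (∃ s₁ ∈ Icc a b, ∃ s₂ ∈ Icc a b, s₁ < s₂ ∧ (∀ x ∈ B.F₁, ⟪x, m s₁⟫ = c s₁) ∧
      (∀ x ∈ B.F₂, ⟪x, m s₂⟫ = c s₂) ∧ (∃ l : ℝ, 0 < l ∧ B.ν₁ = l • m s₁) ∧
      ∃ l : ℝ, 0 < l ∧ B.ν₂ = -(l • m s₂)) ∧ SlicedOrthogonally B := by
  have hp' : Passes (pts B) a b m c t := hp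
  have hF₁ : B.F₁ ⊆ pts B := fun x hx => Or.inl (Or.inr hx)
  have hF₂ : B.F₂ ⊆ pts B := fun x hx => Or.inr hx
  -- the first end
  obtain ⟨x₁, hx₁, hx₁s⟩ := hs₁
  obtain ⟨u₁, hu₁, rfl⟩ := hx₁
  have hx₁ : B.φ₁ u₁ ∈ B.F₁ := ⟨u₁, hu₁, rfl⟩
  have hs₁m := hp'.mem _ (hF₁ hx₁)
  have hpar₁ : ∃ l : ℝ, 0 < l ∧ B.ν₁ = l • m (t (B.φ₁ u₁)) := by
    refine parallel hν₁ (hp'.norm_eq _ hs₁m) fun v hv => ?_
    by_contra hneg
    push Not at hneg
    obtain ⟨u, hu, v', hv', hev, hP, hL⟩ := exists_ray hp' hφ₁ hG₁ hF₁ h.forth hu₁ hv (-1)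
      (by linarith) (fun r => r < s) (Iio_mem_nhds hx₁s)
    obtain ⟨y, hy, hy'⟩ := leaves_neg hp' hn hF₂ hL (hF₁ ⟨u, hu, rfl⟩) (by linarith)
    linarith [hs₂ y hy]
  obtain ⟨l₁, hl₁, hl₁'⟩ := hpar₁
  set s₁ := t (B.φ₁ u₁) with hs₁def
  have hF₁s : ∀ x ∈ B.F₁, ⟪x, m s₁⟫ = c s₁ := by
    intro x hx
    have e1 := h₁ x hx
    have e2 := h₁ _ hx₁
    rw [hl₁', real_inner_smul_right] at e1 e2
    have e3 : ⟪x, m s₁⟫ = ⟪B.φ₁ u₁, m s₁⟫ :=
      mul_left_cancel₀ hl₁.ne' (e1.trans e2.symm)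
    rw [e3]
    exact hp'.eq _ (hF₁ hx₁)
  have hF₁t : ∀ x ∈ B.F₁, t x = s₁ := fun x hx => eq_of_eq hp' (hF₁ hx) hs₁m (hF₁s x hx)
  -- the second end
  obtain ⟨x₂, hx₂⟩ := hne
  obtain ⟨u₂, hu₂, rfl⟩ := hx₂
  have hx₂ : B.φ₂ u₂ ∈ B.F₂ := ⟨u₂, hu₂, rfl⟩
  have hs₂m := hp'.mem _ (hF₂ hx₂)
  have hpar₂ : ∃ l : ℝ, 0 < l ∧ B.ν₂ = l • (-m (t (B.φ₂ u₂))) := by
    refine parallel hν₂ (by rw [norm_neg]; exact hp'.norm_eq _ hs₂m) fun v hv => ?_
    by_contra hneg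
    push Not at hneg
    rw [inner_neg_right] at hneg
    obtain ⟨u, hu, v', hv', hev, hP, hL⟩ := exists_ray hp' hφ₂ hG₂ hF₂ h.back hu₂ hv 1
      (by linarith) (fun r => s₁ < r) (Ioi_mem_nhds (hx₁s.trans_le (hs₂ _ hx₂)))
    obtain ⟨y, hy, hy'⟩ := leaves_pos hp' hn hF₁ hL (hF₂ ⟨u, hu, rfl⟩) (by linarith)
    rw [hF₁t y hy] at hy'
    linarith
  obtain ⟨l₂, hl₂, hl₂'⟩ := hpar₂
  set s₂ := t (B.φ₂ u₂) with hs₂def
  have hF₂s : ∀ x ∈ B.F₂, ⟪x, m s₂⟫ = c s₂ := by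
    intro x hx
    have e1 := h₂ x hx
    have e2 := h₂ _ hx₂
    rw [hl₂', real_inner_smul_right, inner_neg_right] at e1 e2
    have e3 : ⟪x, m s₂⟫ = ⟪B.φ₂ u₂, m s₂⟫ :=
      neg_injective (mul_left_cancel₀ hl₂.ne' (e1.trans e2.symm))
    rw [e3]
    exact hp'.eq _ (hF₂ hx₂)
  have hF₂t : ∀ x ∈ B.F₂, t x = s₂ := fun x hx => eq_of_eq hp' (hF₂ hx) hs₂m (hF₂s x hx)
  have hss : s₁ < s₂ := hx₁s.trans_le (hs₂ _ hx₂)
  have hends : ∀ y ∈ B.F₁ ∪ B.F₂, s₁ ≤ t y ∧ t y ≤ s₂ := by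
    rintro y (hy | hy)
    · rw [hF₁t y hy]; exact ⟨le_rfl, hss.le⟩
    · rw [hF₂t y hy]; exact ⟨hss.le, le_rfl⟩
  have hFF : B.F₁ ∪ B.F₂ ⊆ pts B := union_subset hF₁ hF₂
  -- all points of the body lie between the ends
  have hVt : ∀ x ∈ B.V, s₁ ≤ t x ∧ t x ≤ s₂ := by
    have hct := cont_t hp'
    have hVS : B.V ⊆ pts B := fun x hx => Or.inl (Or.inl (Or.inl hx))
    have hdense : ∀ U : Set E3, IsOpen U → U ⊆ B.V → U.Nonempty →
        ∃ x ∈ U, s₁ ≤ t x ∧ t x ≤ s₂ := by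
      intro U hU hUV hUne
      obtain ⟨x, hx, hx'⟩ := exists_of_ae_restrict h.inside hU hUV hUne
      have hxS := hVS (hUV hx)
      have hm1 : ‖m (t x)‖ = 1 := hp'.norm_eq _ (hp'.mem x hxS)
      have hmm : ⟪m (t x), m (t x)⟫ = (1 : ℝ) := by
        rw [real_inner_self_eq_norm_sq, hm1]; norm_num
      refine ⟨x, hx, ?_, ?_⟩
      · have hO : IsOpen {v : E3 | ⟪v, m (t x)⟫ < 0} :=
          isOpen_lt (continuous_id.inner continuous_const) continuous_const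
        obtain ⟨v, hv, hv'⟩ := exists_of_ae hx' hO
          ⟨-m (t x), by simp only [mem_ofPred_eq, inner_neg_left, hmm]; norm_num⟩
        obtain ⟨y, hy, hy'⟩ := leaves_neg hp' hn hFF hv' hxS hv
        linarith [(hends y hy).1]
      · have hO : IsOpen {v : E3 | 0 < ⟪v, m (t x)⟫} :=
          isOpen_lt continuous_const (continuous_id.inner continuous_const)
        obtain ⟨v, hv, hv'⟩ := exists_of_ae hx' hO
          ⟨m (t x), by simp only [mem_ofPred_eq, hmm]; norm_num⟩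
        obtain ⟨y, hy, hy'⟩ := leaves_pos hp' hn hFF hv' hxS hv
        linarith [(hends y hy).2]
    intro x hx
    have hcx : ContinuousAt t x := (hct.mono hVS).continuousAt (hV.mem_nhds hx)
    constructor
    · by_contra hlt
      push Not at hlt
      obtain ⟨U, hU, hUo, hxU⟩ := mem_nhds_iff.1 (hcx.eventually (Iio_mem_nhds hlt))
      obtain ⟨y, hy, hy', _⟩ := hdense (U ∩ B.V) (hUo.inter hV) inter_subset_right ⟨x, hxU, hx⟩
      exact absurd (hU hy.1) (not_lt.2 hy')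
    · by_contra hlt
      push Not at hlt
      obtain ⟨U, hU, hUo, hxU⟩ := mem_nhds_iff.1 (hcx.eventually (Ioi_mem_nhds hlt))
      obtain ⟨y, hy, _, hy'⟩ := hdense (U ∩ B.V) (hUo.inter hV) inter_subset_right ⟨x, hxU, hx⟩
      exact absurd (hU hy.1) (not_lt.2 hy')
  have hWt : ∀ x ∈ B.walls, s₁ ≤ t x ∧ t x ≤ s₂ := by
    intro x hx
    have hxS : x ∈ pts B := Or.inl (Or.inl (Or.inr hx))
    have hcx : ContinuousWithinAt t B.V x :=
      ((cont_t hp') x hxS).mono fun y hy => Or.inl (Or.inl (Or.inl hy))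
    have : (𝓝[B.V] x).NeBot := mem_closure_iff_nhdsWithin_neBot.1 (hW hx)
    exact ⟨ge_of_tendsto hcx (eventually_nhdsWithin_of_forall fun y hy => (hVt y hy).1),
      le_of_tendsto hcx (eventually_nhdsWithin_of_forall fun y hy => (hVt y hy).2)⟩
  have hall : ∀ x ∈ pts B, t x ∈ Icc s₁ s₂ := by
    rintro x (((hx | hx) | hx) | hx)
    · exact hVt x hx
    · exact hWt x hx
    · exact hends x (Or.inl hx)
    · exact hends x (Or.inr hx)
  have hsub : Icc s₁ s₂ ⊆ Icc a b := Icc_subset_Icc hs₁m.1 hs₂m.2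
  refine ⟨⟨s₁, hs₁m, s₂, hs₂m, hss, hF₁s, hF₂s, ⟨l₁, hl₁, hl₁'⟩, l₂, hl₂,
    hl₂'.trans (smul_neg _ _)⟩, ?_⟩
  refine ⟨s₁, s₂, m, c, hss, hp'.cont_m.mono hsub, hp'.cont_c.mono hsub,
    fun r hr => hp'.norm_eq r (hsub hr), ?_, hF₁s, hF₂s, ?_⟩
  · intro x hx
    exact ⟨t x, ⟨hall x hx, hp'.eq x hx⟩, fun r hr => (eq_of_eq hp' hx (hsub hr.1) hr.2).symm⟩
  · intro r hr x hx hxr
    have := hn x hx
    rwa [eq_of_eq hp' (walls_pts hx) (hsub hr) hxr] at this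

end Pool.Agent.Results.MP_4387b1_gt.TubeWalls
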